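import Mathlib
import Pool.Agent.Results.MP_743c94_lc.Full

/-!
# Sets of finite lists of guesses for an initial segment of a real

To a real `X` we assign the set `A X` of (codes of) finite nonempty lists of words of the same
length, one of which is an initial segment of `X`, where all the words agree with `X` up to the
length of the list.
-/

set_option autoImplicit false

namespace Pool.Agent.R623.Intro

open Encodable
open Pool.Agent.Results.MP_743c94_lc.Full (pre pre_length pre_take pre_getElem?)

/-- the length of the first word of a list -/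
def len (L : List (List Bool)) : ℕ := L.headI.length

/-- the list of words `L` is good for the real with the long initial segment `x` -/
def Good (L : List (List Bool)) (x : List Bool) : Prop :=
  1 ≤ L.length ∧ L.length ≤ len L ∧
    (∀ c ∈ L, c.length = len L ∧ c.take L.length = x.take L.length) ∧ x.take (len L) ∈ L

theorem good_iff {X : ℕ → Bool} {L : List (List Bool)} {m : ℕ} (h : len L ≤ m) :
    Good L (pre X m) ↔ Good L (pre X (len L)) := by
  unfold Good
  refine and_congr_right fun _ => and_congr_right fun h2 => ?_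
  rw [pre_take X (h2.trans h), pre_take X h2, pre_take X h, pre_take X le_rfl]

/-- the set of the codes of the lists which are good for `X` -/
def A (X : ℕ → Bool) : Set ℕ :=
  {n | ∃ L : List (List Bool), encode L = n ∧ Good L (pre X (len L))}

theorem encode_mem {X : ℕ → Bool} {L : List (List Bool)} :
    encode L ∈ A X ↔ Good L (pre X (len L)) := by
  constructor
  · rintro ⟨L', h1, h2⟩
    rw [encode_injective h1] at h2
    exact h2
  · intro h
    exact ⟨L, rfl, h⟩

theorem len_single (c : List Bool) : len [c] = c.length := rfl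

theorem single_mem (X : ℕ → Bool) {m : ℕ} (hm : 1 ≤ m) : encode [pre X m] ∈ A X := by
  rw [encode_mem]
  unfold Good
  rw [len_single, pre_length]
  refine ⟨le_rfl, hm, ?_, ?_⟩
  · intro c hc
    rw [List.mem_singleton] at hc
    rw [hc, pre_length]
    exact ⟨rfl, rfl⟩
  · rw [pre_take X le_rfl]
    exact List.mem_singleton.2 rfl

theorem infinite_A (X : ℕ → Bool) : (A X).Infinite := by
  have h1 : Function.Injective fun m : ℕ => encode [pre X (m + 1)] := by
    intro m n h
    have h2 := encode_injective h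
    have h3 := congrArg len h2
    simp only [len_single, pre_length] at h3
    omega
  exact (Set.infinite_range_of_injective h1).mono (by
    rintro _ ⟨m, rfl⟩
    exact single_mem X (by omega))

theorem eq_of_pre {X Y : ℕ → Bool} (h : ∀ m, 1 ≤ m → pre X m = pre Y m) : X = Y := by
  funext n
  have h1 := h (n + 1) (by omega)
  have h2 := pre_getElem? X (k := n + 1) (i := n) (by omega)
  have h3 := pre_getElem? Y (k := n + 1) (i := n) (by omega)
  rw [h1, h3] at h2
  exact (Option.some_injective _ h2).symm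

theorem A_injective : Function.Injective A := by
  intro X Y h
  refine eq_of_pre fun m hm => ?_
  have h1 : encode [pre X m] ∈ A Y := h ▸ single_mem X hm
  rw [encode_mem] at h1
  have h2 := h1.2.2.2
  rw [len_single, pre_length, pre_take Y le_rfl, List.mem_singleton] at h2
  exact h2.symm

/-- a list with one guess for each of several reals -/
def lst {K : ℕ} (Z : Fin K → ℕ → Bool) (l : ℕ) : List (List Bool) := List.ofFn fun i => pre (Z i) l

theorem length_lst {K : ℕ} (Z : Fin K → ℕ → Bool) (l : ℕ) : (lst Z l).length = K := by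
  simp [lst]

theorem mem_lst {K : ℕ} {Z : Fin K → ℕ → Bool} {l : ℕ} {c : List Bool} :
    c ∈ lst Z l ↔ ∃ i, pre (Z i) l = c := by
  simp [lst, List.mem_ofFn]

theorem len_lst {K : ℕ} (hK : 1 ≤ K) (Z : Fin K → ℕ → Bool) (l : ℕ) : len (lst Z l) = l := by
  obtain ⟨k, rfl⟩ : ∃ k, K = k + 1 := ⟨K - 1, by omega⟩
  simp [len, lst, List.ofFn_succ]

theorem lst_mem {K : ℕ} (hK : 1 ≤ K) {Z : Fin K → ℕ → Bool}
    (hZ : ∀ i j, pre (Z i) K = pre (Z j) K) {l : ℕ} (hl : K ≤ l) (i : Fin K) :
    encode (lst Z l) ∈ A (Z i) := by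
  rw [encode_mem]
  unfold Good
  rw [length_lst, len_lst hK, pre_take _ hl, pre_take _ le_rfl]
  refine ⟨hK, hl, ?_, mem_lst.2 ⟨i, rfl⟩⟩
  intro c hc
  obtain ⟨j, rfl⟩ := mem_lst.1 hc
  rw [pre_length, pre_take _ hl]
  exact ⟨rfl, hZ j i⟩

theorem lst_injective {K : ℕ} (hK : 1 ≤ K) (Z : Fin K → ℕ → Bool) :
    Function.Injective fun l => encode (lst Z l) := by
  intro l m h
  have h1 := congrArg len (encode_injective h)
  rwa [len_lst hK, len_lst hK] at h1

/-- An infinite set of reals contains arbitrarily many reals with a common initial segment of a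
given length. -/
theorem exists_many {S : Set (ℕ → Bool)} (hS : S.Infinite) (K : ℕ) :
    ∃ Z : Fin K → ℕ → Bool, Function.Injective Z ∧ (∀ i, Z i ∈ S) ∧
      ∀ i j, pre (Z i) K = pre (Z j) K := by
  have hfin : {l : List Bool | l.length = K}.Finite := List.finite_length_eq Bool K
  have h1 : ∃ σ ∈ {l : List Bool | l.length = K}, (S ∩ {Y | pre Y K = σ}).Infinite := by
    by_contra hcon
    push Not at hcon
    apply hS
    refine (hfin.biUnion (t := fun σ => S ∩ {Y | pre Y K = σ}) fun σ hσ => ?_).subset ?_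
    · exact hcon σ hσ
    · intro Y hY
      rw [Set.mem_iUnion₂]
      exact ⟨pre Y K, pre_length Y K, hY, rfl⟩
  obtain ⟨σ, -, h2⟩ := h1
  obtain ⟨T, hT, hcard⟩ := h2.exists_subset_card_eq K
  have e : Fin K ≃ T := (Finset.equivFinOfCardEq hcard).symm
  refine ⟨fun i => (e i : ℕ → Bool), ?_, ?_, ?_⟩
  · intro i j h
    exact e.injective (Subtype.ext h)
  · intro i
    exact (hT (e i).2).1
  · intro i j
    have h3 : pre (e i : ℕ → Bool) K = σ := (hT (e i).2).2
    have h4 : pre (e j : ℕ → Bool) K = σ := (hT (e j).2).2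
    rw [h3, h4]

/-- `B` is a finite union of sets all of whose infinite subsets are sent to `B` by one of the
operators. -/
def Dcp {Op : Type} (Red : Op → Set ℕ → Set ℕ → Prop) (B : Set ℕ) : Prop :=
  ∃ (n : ℕ) (D : Fin (n + 1) → Set ℕ), B = ⋃ i, D i ∧
    ∀ i, ∃ o : Op, ∀ C ⊆ D i, C.Infinite → Red o C B

/-- **Main combinatorial result.** For countably many operators, `A X` can be decomposed only for
countably many `X`. -/
theorem countable_dcp {Op : Type} [Countable Op] (Red : Op → Set ℕ → Set ℕ → Prop)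
    (hRed : ∀ o C B B', Red o C B → Red o C B' → B = B') :
    {X : ℕ → Bool | Dcp Red (A X)}.Countable := by
  classical
  have h1 : ∀ X : {X : ℕ → Bool | Dcp Red (A X)}, ∃ t : Σ n : ℕ, Fin (n + 1) → Op,
      ∃ D : Fin (t.1 + 1) → Set ℕ, A X.1 = ⋃ i, D i ∧
        ∀ i, ∀ C ⊆ D i, C.Infinite → Red (t.2 i) C (A X.1) := by
    rintro ⟨X, n, D, h2, h3⟩
    have h4 := h3
    choose o ho using h4
    exact ⟨⟨n, o⟩, D, h2, ho⟩
  choose t ht using h1
  have hcov : {X : ℕ → Bool | Dcp Red (A X)} =
      ⋃ s : Σ n : ℕ, Fin (n + 1) → Op, {X | ∃ h : Dcp Red (A X), t ⟨X, h⟩ = s} := by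
    ext X
    simp only [Set.mem_iUnion, Set.mem_ofPred_eq]
    constructor
    · intro h
      exact ⟨_, h, rfl⟩
    · rintro ⟨_, h, _⟩
      exact h
  rw [hcov]
  refine Set.countable_iUnion fun s => ?_
  by_contra hunc
  have hinf : {X | ∃ h : Dcp Red (A X), t ⟨X, h⟩ = s}.Infinite := by
    intro hfin
    exact hunc hfin.countable
  obtain ⟨n, o⟩ := s
  obtain ⟨Z, hZ1, hZ2, hZ3⟩ := exists_many hinf (n + 2)
  have hZ4 : ∀ i, ∃ D : Fin (n + 1) → Set ℕ, A (Z i) = ⋃ j, D j ∧
        ∀ j, ∀ C ⊆ D j, C.Infinite → Red (o j) C (A (Z i)) := by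
    intro i
    obtain ⟨h, h2⟩ := hZ2 i
    have h3 := ht ⟨Z i, h⟩
    rw [h2] at h3
    exact h3
  choose D hD1 hD2 using hZ4
  have hK : 1 ≤ n + 2 := by omega
  -- the class of each list for each of the reals
  have h5 : ∀ (l : ℕ) (i : Fin (n + 2)), ∃ j, encode (lst Z (l + (n + 2))) ∈ D i j := by
    intro l i
    have h6 := lst_mem hK hZ3 (l := l + (n + 2)) (by omega) i
    rw [hD1 i, Set.mem_iUnion] at h6
    exact h6
  choose f hf using h5
  obtain ⟨g, hg⟩ := Finite.exists_infinite_fiber f
  have hg' : (f ⁻¹' {g}).Infinite := Set.infinite_coe_iff.1 hg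
  obtain ⟨i, i', hne, hii⟩ := Fintype.exists_ne_map_eq_of_card_lt g (by simp)
  set C : Set ℕ := (fun l => encode (lst Z (l + (n + 2)))) '' (f ⁻¹' {g}) with hC
  have hCinf : C.Infinite := by
    refine hg'.image ?_
    intro l _ m _ h
    have := lst_injective hK Z h
    omega
  have hCi : ∀ k, C ⊆ D k (g k) := by
    rintro k _ ⟨l, hl, rfl⟩
    have h7 : f l = g := hl
    rw [← h7]
    exact hf l k
  have h8 := hD2 i (g i) C (hCi i) hCinf
  have h9 := hD2 i' (g i') C (hCi i') hCinf
  rw [← hii] at h9
  have h10 := hRed _ _ _ _ h8 h9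
  exact hne (hZ1 (A_injective h10))

end Pool.Agent.R623.Intro
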