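import Pool.Agent.R623.I.Comb
import Pool.Agent.R623.C.Main

/-!
# Compactness arguments for the sets of lists
-/

set_option autoImplicit false

namespace Pool.Agent.R623.Intro

open Encodable
open Pool.Agent.Results.MP_743c94_lc.Full (pre pre_length pre_take pre_getElem?)
open Pool.Agent.R623.HTR (wrds mem_wrds)

theorem pre_succ (X : ℕ → Bool) (m : ℕ) : pre X (m + 1) = pre X m ++ [X m] := by
  simp [pre, List.range_succ]

theorem clopen_pre (m : ℕ) : ∀ p : List Bool → Prop, IsClopen {Y : ℕ → Bool | p (pre Y m)} := by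
  induction m with
  | zero =>
    intro p
    by_cases h : p []
    · have : {Y : ℕ → Bool | p (pre Y 0)} = Set.univ := by
        ext Y
        simp only [Set.mem_ofPred_eq, Set.mem_univ, iff_true]
        exact h
      rw [this]
      exact isClopen_univ
    · have : {Y : ℕ → Bool | p (pre Y 0)} = ∅ := by
        ext Y
        simp only [Set.mem_ofPred_eq, Set.mem_empty_iff_false, iff_false]
        exact h
      rw [this]
      exact isClopen_empty
  | succ m ih =>
    intro p
    have hb : ∀ b : Bool, IsClopen {Y : ℕ → Bool | Y m = b} := fun b =>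
      (isClopen_discrete {b}).preimage (continuous_apply m)
    have : {Y : ℕ → Bool | p (pre Y (m + 1))} =
        ({Y : ℕ → Bool | Y m = true} ∩ {Y | p (pre Y m ++ [true])}) ∪
          ({Y : ℕ → Bool | Y m = false} ∩ {Y | p (pre Y m ++ [false])}) := by
      ext Y
      simp only [Set.mem_ofPred_eq, Set.mem_union, Set.mem_inter_iff, pre_succ]
      cases Y m <;> simp
    rw [this]
    exact ((hb true).inter (ih fun σ => p (σ ++ [true]))).union
      ((hb false).inter (ih fun σ => p (σ ++ [false])))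

/-- the reals which are not excluded by the lists in `S` -/
def Cl (S : Set (List (List Bool))) : Set (ℕ → Bool) := {Y | ∀ L ∈ S, pre Y (len L) ∈ L}

/-- Compactness: a consequence for the class `Cl S` follows from finitely many lists. -/
theorem compact_fin {S : Set (List (List Bool))} {σ τ : List Bool}
    (h : ∀ Y ∈ Cl S, pre Y σ.length = σ → pre Y τ.length = τ) :
    ∃ F : List (List (List Bool)), (∀ L ∈ F, L ∈ S) ∧
      ∀ Y : ℕ → Bool, (∀ L ∈ F, pre Y (len L) ∈ L) → pre Y σ.length = σ → pre Y τ.length = τ := by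
  have hcl : IsClosed ({Y : ℕ → Bool | pre Y σ.length = σ} ∩
      {Y : ℕ → Bool | ¬ pre Y τ.length = τ}) :=
    ((clopen_pre σ.length fun x => x = σ).inter (clopen_pre τ.length fun x => ¬ x = τ)).isClosed
  have hK : IsCompact ({Y : ℕ → Bool | pre Y σ.length = σ} ∩
      {Y : ℕ → Bool | ¬ pre Y τ.length = τ}) := hcl.isCompact
  obtain ⟨u, hu⟩ := hK.elim_finite_subfamily_closed
    (fun L : S => {Y : ℕ → Bool | pre Y (len L.1) ∈ L.1})
    (fun L => (clopen_pre (len L.1) fun x => x ∈ L.1).isClosed) (by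
      ext Y
      simp only [Set.mem_inter_iff, Set.mem_ofPred_eq, Set.mem_iInter, Set.mem_empty_iff_false,
        iff_false]
      rintro ⟨⟨h1, h2⟩, h3⟩
      exact h2 (h Y (fun L hL => h3 ⟨L, hL⟩) h1))
  refine ⟨u.toList.map Subtype.val, ?_, ?_⟩
  · intro L hL
    obtain ⟨L', -, rfl⟩ := List.mem_map.1 hL
    exact L'.2
  · intro Y h1 h2
    by_contra h3
    have h4 : Y ∈ ({Y : ℕ → Bool | pre Y σ.length = σ} ∩
      {Y : ℕ → Bool | ¬ pre Y τ.length = τ}) ∩ ⋂ i ∈ u, {Y : ℕ → Bool | pre Y (len i.1) ∈ i.1} := by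
      refine ⟨⟨h2, h3⟩, ?_⟩
      rw [Set.mem_iInter₂]
      intro L hL
      exact h1 L.1 (List.mem_map.2 ⟨L, Finset.mem_toList.2 hL, rfl⟩)
    rw [hu] at h4
    exact h4

/-- Finitely many reals are separated by their initial segments of some length. -/
theorem exists_sep {T : Set (ℕ → Bool)} (hT : T.Finite) :
    ∃ N, ∀ m, N ≤ m → ∀ Y ∈ T, ∀ Z ∈ T, pre Y m = pre Z m → Y = Z := by
  classical
  have h1 : ∀ p : (ℕ → Bool) × (ℕ → Bool), ∃ n, p.1 ≠ p.2 → p.1 n ≠ p.2 n := by
    intro p
    by_cases h : p.1 = p.2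
    · exact ⟨0, fun h2 => absurd h h2⟩
    · obtain ⟨n, hn⟩ := Function.ne_iff.1 h
      exact ⟨n, fun _ => hn⟩
  choose f hf using h1
  have hfin : (T ×ˢ T).Finite := hT.prod hT
  obtain ⟨N, hN⟩ := (hfin.image fun p => f p + 1).bddAbove
  refine ⟨N, fun m hm Y hY Z hZ h => ?_⟩
  by_contra hne
  have h2 : f (Y, Z) + 1 ≤ N := hN ⟨(Y, Z), ⟨hY, hZ⟩, rfl⟩
  have h3 := hf (Y, Z) hne
  apply h3
  have h4 := pre_getElem? Y (k := m) (i := f (Y, Z)) (by omega)
  have h5 := pre_getElem? Z (k := m) (i := f (Y, Z)) (by omega)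
  rw [h, h5] at h4
  exact (Option.some_injective _ h4).symm

theorem finite_lists (W : Set (List Bool)) (hW : W.Finite) (K : ℕ) :
    {L : List (List Bool) | L.length = K ∧ ∀ c ∈ L, c ∈ W}.Finite := by
  induction K with
  | zero =>
    refine (Set.finite_singleton ([] : List (List Bool))).subset ?_
    rintro L ⟨h, -⟩
    exact List.length_eq_zero_iff.1 h
  | succ K ih =>
    refine ((hW.prod ih).image fun p : List Bool × List (List Bool) => p.1 :: p.2).subset ?_
    rintro L ⟨h, h2⟩
    cases L with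
    | nil => simp at h
    | cons c L =>
      refine ⟨(c, L), ⟨h2 c (by simp), ?_, fun d hd => h2 d (by simp [hd])⟩, rfl⟩
      simpa using h

/-- An infinite set of lists with the same number of words contains long words. -/
theorem exists_long {S : Set (List (List Bool))} (hS : S.Infinite) {K : ℕ}
    (h1 : ∀ L ∈ S, L.length = K) (h2 : ∀ L ∈ S, ∀ c ∈ L, c.length = len L) (N : ℕ) :
    ∃ L ∈ S, N ≤ len L := by
  by_contra hcon
  push Not at hcon
  apply hS
  have hW : {c : List Bool | c.length < N}.Finite := List.finite_length_lt Bool N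
  refine (finite_lists _ hW K).subset ?_
  intro L hL
  refine ⟨h1 L hL, fun c hc => ?_⟩
  have h3 := hcon L hL
  have h4 := h2 L hL c hc
  show c.length < N
  omega

/-- An infinite set of lists with the same number of words leaves only finitely many reals. -/
theorem finite_Cl {S : Set (List (List Bool))} (hS : S.Infinite) {K : ℕ}
    (h1 : ∀ L ∈ S, L.length = K) (h2 : ∀ L ∈ S, ∀ c ∈ L, c.length = len L) : (Cl S).Finite := by
  classical
  by_contra hinf
  obtain ⟨T, hT, hcard⟩ := (show (Cl S).Infinite from hinf).exists_subset_card_eq (K + 1)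
  obtain ⟨N, hN⟩ := exists_sep T.finite_toSet
  obtain ⟨L, hL, hlen⟩ := exists_long hS h1 h2 N
  have h3 : (T.image fun Y => pre Y (len L)) ⊆ L.toFinset := by
    intro c hc
    obtain ⟨Y, hY, rfl⟩ := Finset.mem_image.1 hc
    exact List.mem_toFinset.2 (hT hY L hL)
  have h4 : (T.image fun Y => pre Y (len L)).card = K + 1 := by
    rw [Finset.card_image_of_injOn, hcard]
    intro Y hY Z hZ h
    exact hN _ hlen Y hY Z hZ h
  have h5 := (Finset.card_le_card h3).trans (List.toFinset_card_le L)
  rw [h4, h1 L hL] at h5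
  omega

/-- If the columns of infinitely many good lists with the same number of words are given, then the
real is isolated. -/
theorem exists_iso {X : ℕ → Bool} {S : Set (List (List Bool))} (hS : S.Infinite) {K : ℕ}
    (h1 : ∀ L ∈ S, L.length = K) (h2 : ∀ L ∈ S, ∀ c ∈ L, c.length = len L)
    (hX : ∀ L ∈ S, pre X (len L) ∈ L) :
    ∃ s, ∀ Y ∈ Cl S, pre Y s = pre X s → Y = X := by
  obtain ⟨N, hN⟩ := exists_sep (finite_Cl hS h1 h2)
  exact ⟨N, fun Y hY h => hN N le_rfl Y hY X hX h⟩

/-- **Key lemma.** Description of the initial segments of `X` from an infinite set of good lists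
with the same number of words. -/
theorem seg_iff {X : ℕ → Bool} {S : Set (List (List Bool))} (hS : S.Infinite) {K : ℕ}
    (h1 : ∀ L ∈ S, L.length = K) (h2 : ∀ L ∈ S, ∀ c ∈ L, c.length = len L)
    (hX : ∀ L ∈ S, pre X (len L) ∈ L) : ∃ τ₀ : List Bool, ∀ τ : List Bool,
      pre X τ.length = τ ↔ ∃ (F : List (List (List Bool))) (N : ℕ), (∀ L ∈ F, L ∈ S) ∧
        (∀ L ∈ F, len L ≤ N) ∧ τ.length ≤ N ∧ τ₀.length ≤ N ∧
        ∀ x ∈ wrds N, (∃ L ∈ F, x.take (len L) ∉ L) ∨ x.take τ₀.length ≠ τ₀ ∨
          x.take τ.length = τ := by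
  obtain ⟨s, hs⟩ := exists_iso hS h1 h2 hX
  refine ⟨pre X s, fun τ => ⟨fun hτ => ?_, ?_⟩⟩
  · have h3 : ∀ Y ∈ Cl S, pre Y (pre X s).length = pre X s → pre Y τ.length = τ := by
      intro Y hY h
      rw [pre_length] at h
      rw [hs Y hY h, hτ]
    obtain ⟨F, hF1, hF2⟩ := compact_fin h3
    have h4 : ∃ N, ∀ L ∈ F, len L ≤ N := by
      obtain ⟨N, hN⟩ := ((F.toFinset.finite_toSet).image len).bddAbove
      exact ⟨N, fun L hL => hN ⟨L, by simpa using hL, rfl⟩⟩
    obtain ⟨N₀, hN₀⟩ := h4
    refine ⟨F, N₀ + τ.length + (pre X s).length, hF1, fun L hL => (hN₀ L hL).trans (by omega),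
      by omega, by omega, fun x hx => ?_⟩
    rw [mem_wrds] at hx
    by_cases h5 : ∃ L ∈ F, x.take (len L) ∉ L
    · exact Or.inl h5
    · push Not at h5
      by_cases h6 : x.take (pre X s).length = pre X s
      · refine Or.inr (Or.inr ?_)
        -- extend `x` to a real
        set Y : ℕ → Bool := fun n => x.getD n false with hY
        have h7 : pre Y x.length = x := by
          rw [Pool.Agent.R623.HTR.pre_eq_iff]
          intro i _
          rfl
        have h8 : ∀ m, m ≤ x.length → x.take m = pre Y m := by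
          intro m hm
          conv_lhs => rw [← h7]
          exact pre_take Y hm
        rw [h8 _ (by omega)]
        apply hF2 Y
        · intro L hL
          rw [← h8 _ ((hN₀ L hL).trans (by omega))]
          exact h5 L hL
        · rw [← h8 _ (by omega)]
          exact h6
      · exact Or.inr (Or.inl h6)
  · rintro ⟨F, N, hF, hN, h3, h4, h5⟩
    have h6 := h5 (pre X N) (mem_wrds.2 (pre_length X N))
    rw [pre_take X h3, pre_take X h4] at h6
    rcases h6 with ⟨L, hL, h7⟩ | h7 | h7
    · rw [pre_take X (hN L hL)] at h7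
      exact absurd (hX L (hF L hL)) h7
    · rw [pre_length] at h7
      exact absurd rfl h7
    · exact h7

end Pool.Agent.R623.Intro
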