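import Pool.Agent.R623.I.Pos

/-!
# Turing operators
-/

set_option autoImplicit false

namespace Pool.Agent.R623.Intro

open Pool.Agent.Helper446 Pool.Agent.Helper446.Defs
open Pool.Agent.R623.HTR (st)

/-- Programs with an oracle (Turing operators). -/
inductive OCode : Type
  | zero : OCode
  | succ : OCode
  | left : OCode
  | right : OCode
  | oracle : OCode
  | pair : OCode → OCode → OCode
  | comp : OCode → OCode → OCode
  | prec : OCode → OCode → OCode
  | rfind : OCode → OCode

/-- The partial function computed by a program with the oracle `g`. -/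
def OCode.eval (g : ℕ →. ℕ) : OCode → (ℕ →. ℕ)
  | .zero => fun _ => Part.some 0
  | .succ => fun n => Part.some (n + 1)
  | .left => fun n => Part.some (Nat.unpair n).1
  | .right => fun n => Part.some (Nat.unpair n).2
  | .oracle => g
  | .pair a b => fun n => Nat.pair <$> a.eval g n <*> b.eval g n
  | .comp a b => fun n => b.eval g n >>= a.eval g
  | .prec a b => fun p =>
      let (x, n) := Nat.unpair p
      n.rec (a.eval g x) fun y IH => do
        let i ← IH
        b.eval g (Nat.pair x (Nat.pair y i))
  | .rfind a => fun x => Nat.rfind fun n => (fun m => m = 0) <$> a.eval g (Nat.pair x n)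

/-- The characteristic function of a set of natural numbers. -/
noncomputable def char (A : Set ℕ) : ℕ →. ℕ := by
  classical exact fun n => Part.some (if n ∈ A then 1 else 0)

theorem char_eq_chi (A : Set ℕ) : char A = chi A := by
  classical
  funext n
  unfold char chi chiN
  rfl

theorem char_injective {A B : Set ℕ} (h : char A = char B) : A = B := by
  classical
  ext n
  have h1 := congrFun h n
  unfold char at h1
  have h2 := Part.some_injective h1
  by_cases ha : n ∈ A <;> by_cases hb : n ∈ B <;> simp_all

/-- A partial function is recursive in the oracle exactly when some program computes it. -/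
theorem turing_iff_code {f g : ℕ →. ℕ} : TuringReducible f g ↔ ∃ c : OCode, c.eval g = f := by
  unfold TuringReducible
  rw [RecursiveIn.iff_nat]
  constructor
  · intro h
    induction h with
    | zero => exact ⟨.zero, rfl⟩
    | succ => exact ⟨.succ, rfl⟩
    | left => exact ⟨.left, rfl⟩
    | right => exact ⟨.right, rfl⟩
    | oracle g' hg' =>
      rw [Set.mem_singleton_iff] at hg'
      subst hg'
      exact ⟨.oracle, rfl⟩
    | pair _ _ ih1 ih2 =>
      obtain ⟨a, rfl⟩ := ih1
      obtain ⟨b, rfl⟩ := ih2
      exact ⟨.pair a b, rfl⟩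
    | comp _ _ ih1 ih2 =>
      obtain ⟨a, rfl⟩ := ih1
      obtain ⟨b, rfl⟩ := ih2
      exact ⟨.comp a b, rfl⟩
    | prec _ _ ih1 ih2 =>
      obtain ⟨a, rfl⟩ := ih1
      obtain ⟨b, rfl⟩ := ih2
      exact ⟨.prec a b, rfl⟩
    | rfind _ ih =>
      obtain ⟨a, rfl⟩ := ih
      exact ⟨.rfind a, rfl⟩
  · rintro ⟨c, rfl⟩
    induction c with
    | zero => exact .zero
    | succ => exact .succ
    | left => exact .left
    | right => exact .right
    | oracle => exact .oracle _ (Set.mem_singleton _)
    | pair a b iha ihb => exact .pair iha ihb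
    | comp a b iha ihb => exact .comp iha ihb
    | prec a b iha ihb => exact .prec iha ihb
    | rfind a iha => exact .rfind iha

/-- an enumeration of the programs -/
def OCode.ofNat : ℕ → OCode
  | 0 => .zero
  | 1 => .succ
  | 2 => .left
  | 3 => .right
  | 4 => .oracle
  | n + 5 =>
    have h : n / 4 < n + 5 := by omega
    have _h1 : (n / 4).unpair.1 < n + 5 := lt_of_le_of_lt (Nat.unpair_left_le _) h
    have _h2 : (n / 4).unpair.2 < n + 5 := lt_of_le_of_lt (Nat.unpair_right_le _) h
    if n % 4 = 0 then .pair (OCode.ofNat (n / 4).unpair.1) (OCode.ofNat (n / 4).unpair.2)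
    else if n % 4 = 1 then .comp (OCode.ofNat (n / 4).unpair.1) (OCode.ofNat (n / 4).unpair.2)
    else if n % 4 = 2 then .prec (OCode.ofNat (n / 4).unpair.1) (OCode.ofNat (n / 4).unpair.2)
    else .rfind (OCode.ofNat (n / 4))

theorem OCode.ofNat_surjective : Function.Surjective OCode.ofNat := by
  intro c
  induction c with
  | zero => exact ⟨0, by rw [OCode.ofNat]⟩
  | succ => exact ⟨1, by rw [OCode.ofNat]⟩
  | left => exact ⟨2, by rw [OCode.ofNat]⟩
  | right => exact ⟨3, by rw [OCode.ofNat]⟩
  | oracle => exact ⟨4, by rw [OCode.ofNat]⟩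
  | pair a b iha ihb =>
    obtain ⟨m, rfl⟩ := iha
    obtain ⟨n, rfl⟩ := ihb
    refine ⟨4 * Nat.pair m n + 5, ?_⟩
    rw [OCode.ofNat, if_pos (by omega), show 4 * Nat.pair m n / 4 = Nat.pair m n by omega,
      Nat.unpair_pair]
  | comp a b iha ihb =>
    obtain ⟨m, rfl⟩ := iha
    obtain ⟨n, rfl⟩ := ihb
    refine ⟨4 * Nat.pair m n + 1 + 5, ?_⟩
    rw [OCode.ofNat, if_neg (by omega), if_pos (by omega),
      show (4 * Nat.pair m n + 1) / 4 = Nat.pair m n by omega, Nat.unpair_pair]
  | prec a b iha ihb =>
    obtain ⟨m, rfl⟩ := iha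
    obtain ⟨n, rfl⟩ := ihb
    refine ⟨4 * Nat.pair m n + 2 + 5, ?_⟩
    rw [OCode.ofNat, if_neg (by omega), if_neg (by omega), if_pos (by omega),
      show (4 * Nat.pair m n + 2) / 4 = Nat.pair m n by omega, Nat.unpair_pair]
  | rfind a iha =>
    obtain ⟨m, rfl⟩ := iha
    refine ⟨4 * m + 3 + 5, ?_⟩
    rw [OCode.ofNat, if_neg (by omega), if_neg (by omega), if_neg (by omega),
      show (4 * m + 3) / 4 = m by omega]

instance : Countable OCode := OCode.ofNat_surjective.countable

/-- `B` is introreducible: it is infinite and computable from each of its infinite subsets. -/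
def Introreducible (B : Set ℕ) : Prop :=
  B.Infinite ∧ ∀ C ⊆ B, C.Infinite → TuringReducible (char B) (char C)

/-- One program computes `B` from every infinite subset of `D`. -/
def UniformlyReducible (B D : Set ℕ) : Prop :=
  ∃ c : OCode, ∀ C ⊆ D, C.Infinite → c.eval (char C) = char B

theorem introreducible_A (X : ℕ → Bool) : Introreducible (A X) :=
  ⟨infinite_A X, fun C hC hinf => by
    rw [char_eq_chi, char_eq_chi]
    exact turing_A hC hinf⟩

theorem equiv_A (X : ℕ → Bool) : TuringEquivalent (char (A X)) (char (st X)) := by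
  rw [char_eq_chi, char_eq_chi]
  exact ⟨A_le X, le_A X⟩

end Pool.Agent.R623.Intro
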