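import Pool.Agent.R623.I.Iso
import Pool.Agent.R623.C.Dec
import Pool.Agent.R623.C.Tur

/-!
# Positive enumerability, and the computation of the sets of lists from their infinite subsets
-/

set_option autoImplicit false

namespace Pool.Agent.R623.Intro

open Encodable Pool.Agent.Helper446 Pool.Agent.Helper446.Defs Pool.Agent.Helper446.RE
  Pool.Agent.Helper446.Oracle
open Pool.Agent.Results.MP_743c94_lc.Full (pre pre_length pre_take pre_getElem?)
open Pool.Agent.R623.HTR (wrds mem_wrds primrec_wrds Seg seg_pre st re_seg chi_st)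

section

variable {α β γ : Type*} [Primcodable α] [Primcodable β] [Primcodable γ]

/-- `S` is enumerable from positive information about `C`. -/
def PosIn (C : Set ℕ) (S : α → Prop) : Prop :=
  ∃ R : α → List ℕ → Prop, REPred (fun x : α × List ℕ => R x.1 x.2) ∧
    ∀ a, S a ↔ ∃ D : List ℕ, (∀ x ∈ D, x ∈ C) ∧ R a D

variable {C : Set ℕ}

theorem PosIn.toREIn {S : α → Prop} (h : PosIn C S) : REIn C S := by
  obtain ⟨R, hR, h1⟩ := h
  refine ⟨fun a c => R a c.1, RE.comp hR (f := fun x : α × (List ℕ × List ℕ) => (x.1, x.2.1))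
    (by fun_prop), fun a => ?_⟩
  rw [h1]
  constructor
  · rintro ⟨D, h2, h3⟩
    exact ⟨(D, []), h3, h2, fun x hx => absurd hx (by simp)⟩
  · rintro ⟨c, h2, h3⟩
    exact ⟨c.1, h3.1, h2⟩

theorem PosIn.mk {S : α → Prop} {T : α → β → Prop} {l : β → List γ} {g : γ → ℕ}
    (hl : Computable l) (hg : Computable g) (hT : REPred fun x : α × β => T x.1 x.2)
    (h : ∀ a, S a ↔ ∃ b, (∀ c ∈ l b, g c ∈ C) ∧ T a b) : PosIn C S := by
  refine ⟨fun a D => ∃ b, (∀ c ∈ l b, g c ∈ D) ∧ T a b, ?_, fun a => ?_⟩
  · refine RE.ex (p := fun (x : α × List ℕ) (b : β) => (∀ c ∈ l b, g c ∈ x.2) ∧ T x.1 b) ?_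
    refine RE.and ?_ ?_
    · refine RE.all_mem (p := fun (y : (α × List ℕ) × β) (c : γ) => g c ∈ y.1.2)
        (l := fun y : (α × List ℕ) × β => l y.2) ?_ (hl.comp Computable.snd)
      refine RE.mem_list (f := fun z : ((α × List ℕ) × β) × γ => g z.2)
        (l := fun z : ((α × List ℕ) × β) × γ => z.1.1.2) (hg.comp Computable.snd) (by fun_prop)
    · exact RE.comp hT (f := fun y : (α × List ℕ) × β => (y.1.1, y.2)) (by fun_prop)
  · rw [h]
    constructor
    · rintro ⟨b, h1, h2⟩
      refine ⟨(l b).map g, ?_, b, fun c hc => List.mem_map.2 ⟨c, hc, rfl⟩, h2⟩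
      intro x hx
      obtain ⟨c, hc, rfl⟩ := List.mem_map.1 hx
      exact h1 c hc
    · rintro ⟨D, h1, b, h2, h3⟩
      exact ⟨b, fun c hc => h1 _ (h2 c hc), h3⟩

theorem PosIn.bind {S : α → Prop} {P : β → Prop} {Q : α → β → Prop} (hP : PosIn C P)
    (hQ : REPred fun x : α × β => Q x.1 x.2) (h : ∀ a, S a ↔ ∃ b, P b ∧ Q a b) : PosIn C S := by
  obtain ⟨R, hR, h1⟩ := hP
  refine ⟨fun a D => ∃ b, R b D ∧ Q a b, ?_, fun a => ?_⟩
  · refine RE.ex (p := fun (x : α × List ℕ) (b : β) => R b x.2 ∧ Q x.1 b) ?_
    refine RE.and ?_ ?_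
    · exact RE.comp hR (f := fun y : (α × List ℕ) × β => (y.2, y.1.2)) (by fun_prop)
    · exact RE.comp hQ (f := fun y : (α × List ℕ) × β => (y.1.1, y.2)) (by fun_prop)
  · rw [h]
    constructor
    · rintro ⟨b, h2, h3⟩
      obtain ⟨D, h4, h5⟩ := (h1 b).1 h2
      exact ⟨D, h4, b, h5, h3⟩
    · rintro ⟨D, h4, b, h5, h3⟩
      exact ⟨b, (h1 b).2 ⟨D, h4, h5⟩, h3⟩

end

theorem primrec_len : Primrec len :=
  Primrec.list_length.comp (Primrec.list_headI)

theorem computable_len : Computable len := primrec_len.to_comp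

theorem computable_take : Computable₂ fun (n : ℕ) (l : List Bool) => l.take n :=
  Primrec.list_take.to_comp

/-! ### The initial segments -/

theorem re_case1 : REPred fun x : List Bool × List (List Bool) =>
    x.1.length ≤ x.2.length ∧ x.2.headI.take x.1.length = x.1 := by
  refine RE.and (RE.le (by fun_prop) (by fun_prop)) ?_
  refine RE.eq ?_ Computable.fst
  exact computable_take.comp (Computable.list_length.comp Computable.fst)
    (Primrec.list_headI.to_comp.comp Computable.snd)

theorem posIn_case1 {X : ℕ → Bool} {C : Set ℕ} (hC : C ⊆ A X)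
    (h : ∀ N, ∃ L : List (List Bool), encode L ∈ C ∧ N ≤ L.length) : PosIn C (Seg X) := by
  refine PosIn.mk (l := fun L : List (List Bool) => [L]) (g := fun L : List (List Bool) => encode L)
    (T := fun (σ : List Bool) (L : List (List Bool)) => σ.length ≤ L.length ∧
      L.headI.take σ.length = σ) (by fun_prop) Computable.encode re_case1 fun σ => ?_
  constructor
  · intro hσ
    obtain ⟨L, hL, hlen⟩ := h σ.length
    refine ⟨L, ?_, hlen, ?_⟩
    · intro c hc
      rw [List.mem_singleton] at hc
      rw [hc]
      exact hL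
    · have h1 : Good L (pre X (len L)) := encode_mem.1 (hC hL)
      obtain ⟨h2, h3, h4, -⟩ := h1
      have h5 : L.headI ∈ L := by
        cases L with
        | nil => simp at h2
        | cons c L => simp
      have h6 := (h4 _ h5).2
      rw [pre_take X h3] at h6
      have h7 := congrArg (List.take σ.length) h6
      rw [List.take_take, min_eq_left hlen, pre_take X hlen, hσ] at h7
      exact h7
  · rintro ⟨L, h1, hlen, h2⟩
    have h3 : Good L (pre X (len L)) := encode_mem.1 (hC (h1 L (List.mem_singleton.2 rfl)))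
    obtain ⟨h4, h5, h6, -⟩ := h3
    have h7 : L.headI ∈ L := by
      cases L with
      | nil => simp at h4
      | cons c L => simp
    have h8 := (h6 _ h7).2
    rw [pre_take X h5] at h8
    have h9 := congrArg (List.take σ.length) h8
    rw [List.take_take, min_eq_left hlen, pre_take X hlen, h2] at h9
    exact h9.symm

theorem re_in (K : ℕ) : REPred fun x : (List Bool × (List (List (List Bool)) × ℕ)) ×
    List (List Bool) => x.2.length = K ∧ len x.2 ≤ x.1.2.2 := by
  refine RE.and (RE.eq (by fun_prop) (by fun_prop)) (RE.le ?_ (by fun_prop))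
  exact computable_len.comp Computable.snd

theorem re_inner (τ₀ : List Bool) : REPred fun y : (List Bool × (List (List (List Bool)) × ℕ)) ×
    List Bool => (∃ L ∈ y.1.2.1, y.2.take (len L) ∉ L) ∨ y.2.take τ₀.length ≠ τ₀ ∨
      y.2.take y.1.1.length = y.1.1 := by
  refine RE.or ?_ (RE.or ?_ ?_)
  · refine RE.ex_mem (p := fun (y : (List Bool × (List (List (List Bool)) × ℕ)) × List Bool)
      (L : List (List Bool)) => y.2.take (len L) ∉ L)
      (l := fun y : (List Bool × (List (List (List Bool)) × ℕ)) × List Bool => y.1.2.1) ?_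
      (by fun_prop)
    refine RE.not_mem_list ?_ Computable.snd
    exact computable_take.comp (computable_len.comp Computable.snd)
      (Computable.snd.comp Computable.fst)
  · exact RE.ne (computable_take.comp (Computable.const _) Computable.snd) (Computable.const _)
  · exact RE.eq (computable_take.comp (Computable.list_length.comp
      (Computable.fst.comp Computable.fst)) Computable.snd) (Computable.fst.comp Computable.fst)

theorem re_case2 (K : ℕ) (τ₀ : List Bool) : REPred
    fun x : List Bool × (List (List (List Bool)) × ℕ) =>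
      (∀ L ∈ x.2.1, L.length = K ∧ len L ≤ x.2.2) ∧ x.1.length ≤ x.2.2 ∧ τ₀.length ≤ x.2.2 ∧
        ∀ y ∈ wrds x.2.2, (∃ L ∈ x.2.1, y.take (len L) ∉ L) ∨ y.take τ₀.length ≠ τ₀ ∨
          y.take x.1.length = x.1 := by
  refine RE.and ?_ (RE.and ?_ (RE.and ?_ ?_))
  · exact RE.all_mem (p := fun (x : List Bool × (List (List (List Bool)) × ℕ))
      (L : List (List Bool)) => L.length = K ∧ len L ≤ x.2.2)
      (l := fun x : List Bool × (List (List (List Bool)) × ℕ) => x.2.1) (re_in K) (by fun_prop)
  · exact RE.le (by fun_prop) (by fun_prop)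
  · exact RE.le (by fun_prop) (by fun_prop)
  · exact RE.all_mem (p := fun (x : List Bool × (List (List (List Bool)) × ℕ))
      (y : List Bool) => (∃ L ∈ x.2.1, y.take (len L) ∉ L) ∨ y.take τ₀.length ≠ τ₀ ∨
          y.take x.1.length = x.1)
      (l := fun x : List Bool × (List (List (List Bool)) × ℕ) => wrds x.2.2) (re_inner τ₀)
      (primrec_wrds.to_comp.comp (Computable.snd.comp Computable.snd))

theorem posIn_case2 {X : ℕ → Bool} {C : Set ℕ} (hC : C ⊆ A X) {K : ℕ}
    (hK : {L : List (List Bool) | encode L ∈ C ∧ L.length = K}.Infinite) : PosIn C (Seg X) := by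
  have hgood : ∀ L : List (List Bool), encode L ∈ C → Good L (pre X (len L)) := fun L hL =>
    encode_mem.1 (hC hL)
  obtain ⟨τ₀, hτ₀⟩ := seg_iff (X := X) hK (K := K) (fun L hL => hL.2)
    (fun L hL c hc => ((hgood L hL.1).2.2.1 c hc).1)
    (fun L hL => by
      have := (hgood L hL.1).2.2.2
      rwa [pre_take X le_rfl] at this)
  refine PosIn.mk (l := fun b : List (List (List Bool)) × ℕ => b.1)
    (g := fun L : List (List Bool) => encode L)
    (T := fun (τ : List Bool) (b : List (List (List Bool)) × ℕ) =>
      (∀ L ∈ b.1, L.length = K ∧ len L ≤ b.2) ∧ τ.length ≤ b.2 ∧ τ₀.length ≤ b.2 ∧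
        ∀ y ∈ wrds b.2, (∃ L ∈ b.1, y.take (len L) ∉ L) ∨ y.take τ₀.length ≠ τ₀ ∨
          y.take τ.length = τ) (by fun_prop) Computable.encode (re_case2 K τ₀) fun τ => ?_
  unfold Seg
  rw [hτ₀]
  constructor
  · rintro ⟨F, N, h1, h2, h3, h4, h5⟩
    exact ⟨(F, N), fun L hL => (h1 L hL).1, fun L hL => ⟨(h1 L hL).2, h2 L hL⟩, h3, h4, h5⟩
  · rintro ⟨⟨F, N⟩, h1, h2, h3, h4, h5⟩
    exact ⟨F, N, fun L hL => ⟨h1 L hL, (h2 L hL).1⟩, fun L hL => (h2 L hL).2, h3, h4, h5⟩

/-- **The initial segments of `X` are enumerable from every infinite subset of `A X`.** -/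
theorem posIn_seg {X : ℕ → Bool} {C : Set ℕ} (hC : C ⊆ A X) (hinf : C.Infinite) :
    PosIn C (Seg X) := by
  by_cases h : ∀ N, ∃ L : List (List Bool), encode L ∈ C ∧ N ≤ L.length
  · exact posIn_case1 hC h
  · push Not at h
    obtain ⟨N, hN⟩ := h
    have h1 : {L : List (List Bool) | encode L ∈ C}.Infinite := by
      intro hfin
      apply hinf
      refine (hfin.image fun L : List (List Bool) => encode L).subset ?_
      intro n hn
      obtain ⟨L, rfl, -⟩ := hC hn
      exact ⟨L, hn, rfl⟩
    have h2 : ∃ K, {L : List (List Bool) | encode L ∈ C ∧ L.length = K}.Infinite := by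
      by_contra hcon
      push Not at hcon
      apply h1
      refine ((Set.finite_lt_nat N).biUnion (t := fun K =>
        {L : List (List Bool) | encode L ∈ C ∧ L.length = K}) fun K _ => hcon K).subset ?_
      intro L hL
      rw [Set.mem_iUnion₂]
      exact ⟨L.length, hN L hL, hL, rfl⟩
    obtain ⟨K, hK⟩ := h2
    exact posIn_case2 hC hK

/-! ### The set itself -/

theorem cp_good : REPred fun x : List (List Bool) × List Bool => Good x.1 x.2 := by
  unfold Good
  refine RE.and ?_ (RE.and ?_ (RE.and ?_ ?_))
  · exact RE.le (by fun_prop) (by fun_prop)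
  · exact RE.le (by fun_prop) (computable_len.comp Computable.fst)
  · refine RE.all_mem (p := fun (x : List (List Bool) × List Bool) (c : List Bool) =>
      c.length = len x.1 ∧ c.take x.1.length = x.2.take x.1.length)
      (l := fun x : List (List Bool) × List Bool => x.1) ?_ Computable.fst
    refine RE.and (RE.eq (by fun_prop) (computable_len.comp (Computable.fst.comp
      Computable.fst))) (RE.eq ?_ ?_)
    · exact computable_take.comp (Computable.list_length.comp (Computable.fst.comp
        Computable.fst)) Computable.snd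
    · exact computable_take.comp (Computable.list_length.comp (Computable.fst.comp
        Computable.fst)) (Computable.snd.comp Computable.fst)
  · exact RE.mem_list (computable_take.comp (computable_len.comp Computable.fst) Computable.snd)
      Computable.fst

theorem re_not_good : REPred fun x : List (List Bool) × List Bool => ¬ Good x.1 x.2 := by
  have h1 : REPred fun x : List (List Bool) × List Bool =>
      x.1.length < 1 ∨ len x.1 < x.1.length ∨
        (∃ c ∈ x.1, c.length ≠ len x.1 ∨ c.take x.1.length ≠ x.2.take x.1.length) ∨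
          x.2.take (len x.1) ∉ x.1 := by
    refine RE.or ?_ (RE.or ?_ (RE.or ?_ ?_))
    · exact RE.lt (by fun_prop) (by fun_prop)
    · exact RE.lt (computable_len.comp Computable.fst) (by fun_prop)
    · refine RE.ex_mem (p := fun (x : List (List Bool) × List Bool) (c : List Bool) =>
        c.length ≠ len x.1 ∨ c.take x.1.length ≠ x.2.take x.1.length)
        (l := fun x : List (List Bool) × List Bool => x.1) ?_ Computable.fst
      refine RE.or (RE.ne (by fun_prop) (computable_len.comp (Computable.fst.comp
        Computable.fst))) (RE.ne ?_ ?_)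
      · exact computable_take.comp (Computable.list_length.comp (Computable.fst.comp
          Computable.fst)) Computable.snd
      · exact computable_take.comp (Computable.list_length.comp (Computable.fst.comp
          Computable.fst)) (Computable.snd.comp Computable.fst)
    · exact RE.not_mem_list (computable_take.comp (computable_len.comp Computable.fst)
        Computable.snd) Computable.fst
  have h2 : (fun x : List (List Bool) × List Bool => ¬ Good x.1 x.2) = fun x =>
      x.1.length < 1 ∨ len x.1 < x.1.length ∨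
        (∃ c ∈ x.1, c.length ≠ len x.1 ∨ c.take x.1.length ≠ x.2.take x.1.length) ∨
          x.2.take (len x.1) ∉ x.1 := by
    funext x
    unfold Good
    apply propext
    constructor
    · intro h
      by_contra hcon
      push Not at hcon
      obtain ⟨h3, h4, h5, h6⟩ := hcon
      exact h ⟨h3, h4, h5, h6⟩
    · rintro (h | h | ⟨c, hc, h⟩ | h) ⟨h3, h4, h5, h6⟩
      · omega
      · omega
      · rcases h with h | h
        · exact h (h5 c hc).1
        · exact h (h5 c hc).2
      · exact h h6
  rw [h2]
  exact h1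

theorem mem_A_iff {X : ℕ → Bool} {n : ℕ} : n ∈ A X ↔ ∃ σ : List Bool, Seg X σ ∧
    ∃ L : List (List Bool), encode L = n ∧ len L ≤ σ.length ∧ Good L σ := by
  constructor
  · rintro ⟨L, h1, h2⟩
    exact ⟨pre X (len L), seg_pre X _, L, h1, by rw [pre_length], h2⟩
  · rintro ⟨σ, h1, L, h2, h3, h4⟩
    refine ⟨L, h2, ?_⟩
    unfold Seg at h1
    rw [← h1] at h4
    exact (good_iff h3).1 h4

theorem not_mem_A_iff {X : ℕ → Bool} {n : ℕ} : n ∉ A X ↔ ∃ σ : List Bool, Seg X σ ∧
    (decode (α := List (List Bool)) n = none ∨ ∃ L : List (List Bool),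
      decode (α := List (List Bool)) n = some L ∧ (encode L ≠ n ∨ len L ≤ σ.length ∧
        ¬ Good L σ)) := by
  constructor
  · intro h
    rcases h1 : decode (α := List (List Bool)) n with _ | L
    · exact ⟨[], rfl, Or.inl rfl⟩
    · refine ⟨pre X (len L), seg_pre X _, Or.inr ⟨L, rfl, ?_⟩⟩
      by_cases h2 : encode L = n
      · exact Or.inr ⟨by rw [pre_length], fun h3 => h ⟨L, h2, h3⟩⟩
      · exact Or.inl h2
  · rintro ⟨σ, h1, h2⟩ ⟨L, h3, h4⟩
    rcases h2 with h2 | ⟨L', h5, h6⟩
    · rw [← h3, encodek] at h2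
      exact absurd h2 (by simp)
    · rw [← h3, encodek] at h5
      have h7 : L = L' := Option.some_injective _ h5
      subst h7
      rcases h6 with h6 | ⟨h6, h8⟩
      · exact h6 h3
      · unfold Seg at h1
        rw [← h1] at h8
        exact h8 ((good_iff h6).2 h4)

theorem re_mem : REPred fun x : ℕ × List Bool =>
    ∃ L : List (List Bool), encode L = x.1 ∧ len L ≤ x.2.length ∧ Good L x.2 := by
  refine RE.ex (p := fun (x : ℕ × List Bool) (L : List (List Bool)) =>
    encode L = x.1 ∧ len L ≤ x.2.length ∧ Good L x.2) ?_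
  refine RE.and ?_ (RE.and ?_ ?_)
  · exact RE.eq (Computable.encode.comp Computable.snd) (by fun_prop)
  · exact RE.le (computable_len.comp Computable.snd) (by fun_prop)
  · exact RE.comp cp_good (f := fun y : (ℕ × List Bool) × List (List Bool) => (y.2, y.1.2))
      (by fun_prop)

theorem re_not_mem : REPred fun x : ℕ × List Bool =>
    decode (α := List (List Bool)) x.1 = none ∨ ∃ L : List (List Bool),
      decode (α := List (List Bool)) x.1 = some L ∧ (encode L ≠ x.1 ∨ len L ≤ x.2.length ∧
        ¬ Good L x.2) := by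
  refine RE.or ?_ ?_
  · exact RE.eq (Computable.decode.comp Computable.fst) (Computable.const _)
  · refine RE.ex (p := fun (x : ℕ × List Bool) (L : List (List Bool)) =>
      decode (α := List (List Bool)) x.1 = some L ∧ (encode L ≠ x.1 ∨ len L ≤ x.2.length ∧
        ¬ Good L x.2)) ?_
    refine RE.and ?_ (RE.or ?_ (RE.and ?_ ?_))
    · exact RE.eq (Computable.decode.comp (Computable.fst.comp Computable.fst))
        (Computable.option_some.comp Computable.snd)
    · exact RE.ne (Computable.encode.comp Computable.snd) (by fun_prop)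
    · exact RE.le (computable_len.comp Computable.snd) (by fun_prop)
    · exact RE.comp re_not_good (f := fun y : (ℕ × List Bool) × List (List Bool) => (y.2, y.1.2))
        (by fun_prop)

theorem posIn_A {X : ℕ → Bool} {C : Set ℕ} (hC : C ⊆ A X) (hinf : C.Infinite) :
    PosIn C (· ∈ A X) :=
  PosIn.bind (posIn_seg hC hinf) (Q := fun (n : ℕ) (σ : List Bool) =>
    ∃ L : List (List Bool), encode L = n ∧ len L ≤ σ.length ∧ Good L σ) re_mem
    fun _ => mem_A_iff

theorem posIn_compl {X : ℕ → Bool} {C : Set ℕ} (hC : C ⊆ A X) (hinf : C.Infinite) :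
    PosIn C (· ∉ A X) :=
  PosIn.bind (posIn_seg hC hinf) (Q := fun (n : ℕ) (σ : List Bool) =>
    decode (α := List (List Bool)) n = none ∨ ∃ L : List (List Bool),
      decode (α := List (List Bool)) n = some L ∧ (encode L ≠ n ∨ len L ≤ σ.length ∧
        ¬ Good L σ)) re_not_mem fun _ => not_mem_A_iff

/-- Every infinite subset of `A X` computes `A X`. -/
theorem turing_A {X : ℕ → Bool} {C : Set ℕ} (hC : C ⊆ A X) (hinf : C.Infinite) :
    TuringReducible (chi (A X)) (chi C) :=
  turingReducible_iff.2 ⟨(posIn_A hC hinf).toREIn, (posIn_compl hC hinf).toREIn⟩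

/-- `A X` is computable from `X`. -/
theorem A_le (X : ℕ → Bool) : TuringReducible (chi (A X)) (chi (st X)) := by
  refine turingReducible_iff.2 ⟨?_, ?_⟩
  · have h1 : REIn (st X) fun n : ℕ => ∃ σ : List Bool, Seg X σ ∧
        ∃ L : List (List Bool), encode L = n ∧ len L ≤ σ.length ∧ Good L σ := by
      refine REIn.ex (S := fun (n : ℕ) (σ : List Bool) => Seg X σ ∧
        ∃ L : List (List Bool), encode L = n ∧ len L ≤ σ.length ∧ Good L σ) ?_
      exact REIn.and (re_seg (f := fun x : ℕ × List Bool => x.2) (by fun_prop))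
        (REIn.of_re re_mem)
    exact h1.of_eq fun n => mem_A_iff.symm
  · have h1 : REIn (st X) fun n : ℕ => ∃ σ : List Bool, Seg X σ ∧
        (decode (α := List (List Bool)) n = none ∨ ∃ L : List (List Bool),
          decode (α := List (List Bool)) n = some L ∧ (encode L ≠ n ∨ len L ≤ σ.length ∧
            ¬ Good L σ)) := by
      refine REIn.ex (S := fun (n : ℕ) (σ : List Bool) => Seg X σ ∧
        (decode (α := List (List Bool)) n = none ∨ ∃ L : List (List Bool),
          decode (α := List (List Bool)) n = some L ∧ (encode L ≠ n ∨ len L ≤ σ.length ∧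
            ¬ Good L σ))) ?_
      exact REIn.and (re_seg (f := fun x : ℕ × List Bool => x.2) (by fun_prop))
        (REIn.of_re re_not_mem)
    exact h1.of_eq fun n => not_mem_A_iff.symm

/-- `X` is computable from every set from which its initial segments are enumerable. -/
theorem le_of_seg {X : ℕ → Bool} {C : Set ℕ} (h : REIn C (Seg X)) :
    TuringReducible (chi (st X)) (chi C) := by
  have hb : ∀ b : Bool, REIn C fun n : ℕ => X n = b := by
    intro b
    have h1 : REIn C fun n : ℕ => ∃ σ : List Bool, Seg X σ ∧ σ[n]? = some b := by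
      refine REIn.ex (S := fun (n : ℕ) (σ : List Bool) => Seg X σ ∧ σ[n]? = some b) ?_
      refine REIn.and (h.comp (f := fun x : ℕ × List Bool => x.2) (by fun_prop))
        (REIn.of_re (RE.eq ?_ (Computable.const _)))
      exact Computable.list_getElem?.comp Computable.snd Computable.fst
    refine h1.of_eq fun n => ?_
    constructor
    · rintro ⟨σ, h2, h3⟩
      unfold Seg at h2
      rw [← h2] at h3
      exact (Pool.Agent.Results.MP_743c94_lc.Full.pre_getElem?_some h3).symm
    · intro h2
      exact ⟨pre X (n + 1), seg_pre X _, by rw [pre_getElem? X (by omega), h2]⟩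
  refine turingReducible_iff.2 ⟨?_, ?_⟩
  · exact (hb true).of_eq fun n => by simp [st]
  · exact (hb false).of_eq fun n => by simp [st]

theorem le_A (X : ℕ → Bool) : TuringReducible (chi (st X)) (chi (A X)) :=
  le_of_seg (posIn_seg (Set.Subset.refl _) (infinite_A X)).toREIn

theorem exists_not_mem {S : Set (ℕ → Bool)} (hS : S.Countable) : ∃ X, X ∉ S := by
  rcases S.eq_empty_or_nonempty with h | h
  · exact ⟨fun _ => false, by rw [h]; exact Set.notMem_empty _⟩
  · obtain ⟨f, hf⟩ := hS.exists_eq_range h
    refine ⟨fun n => !(f n n), ?_⟩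
    rw [hf]
    rintro ⟨n, hn⟩
    have h1 : f n n = !(f n n) := congrFun hn n
    cases h2 : f n n <;> rw [h2] at h1 <;> exact absurd h1 (by decide)

end Pool.Agent.R623.Intro
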